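import Pool.Agent.L0h20.RS.Ptr

/-!
# Cutting planes need exponential size to refute value one for 2-to-1 games of small value

The definitions used in the statement are `Semantic`, `Asg`, `ptrFormula`, `Cut`, `Cut.Holds`,
`SplitHolds` in `Pool/Agent/L0h20/RS/PtrDefs.lean` and `TGame`, `TNo` in
`Pool/Agent/H589R3/DT/Two.lean`.

The statement that the game `I` has value one is written as a propositional formula `ptrFormula I m` with
pointers: there are `m` copies of each vertex, each with a label, every vertex points to one of its
copies, and for each edge the labels of the copies to which its ends point satisfy the constraint. The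
formula is satisfiable if and only if the game has value one.

For every `δ > 0` there are an alphabet `[q]`, a degree bound `D` and `c > 0` such that for all large `n`
there is a 2-to-1 game `I` on `n + n` vertices with left degrees at most `D` and value at most `δ` such
that every refutation of `ptrFormula I (n ^ 9)` by (semantic) cutting planes has at least `2 ^ (c n)`
lines. Here a line is a linear inequality with arbitrary real coefficients, and it may be any
inequality that is implied, on all truth assignments, by one clause or by two earlier lines; so this
contains resolution, the cutting planes of Gomory and Chvátal, and all other rules with two premises.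
The same holds for proofs with the lines `f (pointer variables) ≤ g (label variables)` with arbitrary
functions `f` and `g`, for instance nonlinear ones.

So the cutting plane method cannot certify in subexponential time that the value is less than one,
although it is at most `δ`.

Proof. A refutation gives a circuit of monotone real gates, with at most twice as many gates, that
accepts all sets of constraints on the copies that are selected by pointers, and rejects all sets of
constraints that are satisfied by labels of the copies (a line is replaced by the gate that computes the
greatest left-hand side for all pointers that are compatible with the values at the premises). Such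
circuits have exponential size by the lower bound of the starting files (`Pool/Agent/H589R3/DT`), as the
games have locally consistent labellings of linearly many vertices (`Pool/Agent/L0h20/RS/Exist.lean`).
-/

set_option autoImplicit false

open Finset

namespace Pool.Agent.Results.MP_ec946a_lc.CuttingPlanes

open H589DT Pool.Agent.L0h20.RS

/-- **Cutting planes and 2-to-1 games.** The formula `ptrFormula I m` is satisfiable if and only if some
labelling satisfies all edges of the game `I`. For every `δ > 0` there are `q`, `D` and `c > 0` such
that for all large `n` there is a 2-to-1 game `I` on `n + n` vertices with alphabet `[q]`, left degrees at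
most `D` and value at most `δ`, such that
* every semantic cutting plane refutation of `ptrFormula I (n ^ 9)` has at least `2 ^ (c n)` lines;
* every semantic refutation of `ptrFormula I (n ^ 9)` with lines of the form
  `f (pointer variables) ≤ g (label variables)` has at least `2 ^ (c n)` lines. -/
theorem result :
    (∀ (U V : Type) (q m : ℕ) (I : TGame U V q), 1 ≤ m →
      ((∃ τ, ∀ C ∈ ptrFormula I m, C τ) ↔
        ∃ (A : U → Fin q) (B : V → Fin q), ∀ u v, I.adj u v → I.map u v (A u) = B v)) ∧
    ∀ δ : ℝ, 0 < δ → ∃ (q D : ℕ) (c : ℝ) (n0 : ℕ), 0 < c ∧ ∀ n : ℕ, n0 ≤ n →
      ∃ I : TGame (Fin n) (Fin n) q, TNo δ I ∧ (∀ u, {v | I.adj u v}.ncard ≤ D) ∧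
        (∀ l : List (Cut (Fin n) (Fin n) q (n ^ 9)),
          Semantic Cut.Holds (ptrFormula I (n ^ 9)) l → (∃ L ∈ l, ∀ τ, ¬ L.Holds τ) →
          (2 : ℝ) ^ (c * n) ≤ l.length) ∧
        ∀ l : List ((((Fin n ⊕ Fin n) × Fin (n ^ 9) → Bool) → ℝ) ×
            ((((Fin n ⊕ Fin n) × Fin (n ^ 9)) × Fin q → Bool) → ℝ)),
          Semantic SplitHolds (ptrFormula I (n ^ 9)) l → (∃ L ∈ l, ∀ τ, ¬ SplitHolds L τ) →
          (2 : ℝ) ^ (c * n) ≤ l.length := by
  refine ⟨fun U V q m I hm => ptr_sat_iff I hm, fun δ hδ => ?_⟩
  obtain ⟨q, D, c, n0, hc, h⟩ := ptr_main δ hδ
  refine ⟨q, D, c, n0, hc, fun n hn => ?_⟩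
  obtain ⟨I, hno, hdeg, hI⟩ := h n hn
  refine ⟨I, hno, hdeg, fun l hl hL => ?_, fun l hl hL => ?_⟩
  · refine hI (Cut (Fin n) (Fin n) q (n ^ 9)) Cut.Holds
      (fun L x => L.c - ∑ i, if x i = true then L.α i else 0)
      (fun L y => ∑ i, if y i = true then L.β i else 0) (fun L τ => ?_) l hl hL
    unfold Cut.Holds
    constructor
    · intro h
      linarith
    · intro h
      linarith
  · exact hI _ SplitHolds (fun L => L.1) (fun L => L.2) (fun L τ => Iff.rfl) l hl hL

end Pool.Agent.Results.MP_ec946a_lc.CuttingPlanes
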