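import Pool.Agent.L0h35.GnFin

/-!
# Gap 2-to-1 games are hard for functions of few circuits with few NOT gates (MP_ec946a_lc)

For every `δ > 0` there is an alphabet size `q` such that randomised functions of `K` circuits with
at most `r` NOT gates each need size `2 ^ (N ^ (ε / (140 K 2 ^ r)))` to tell the 2-to-1 games with
`N + N` vertices and alphabet `[q]` of value one from those of value at most `δ` with probability
`1 / 2 + ε`, as long as `140 K 2 ^ r log log N ≤ ε log N`.

Proof.  The games have `b` levels, `b` slightly larger than `2 K 2 ^ r / ε`.  Level `t` consists of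
`R ^ t` disjoint copies of one host game (sparse random copies for NO, all constraints satisfied by
random labels for YES, as in the starting file `MonotoneCircuits`), where `R - 1` is the number of
all constraints of the host.  So if the last nonempty level is a NO instance, then it has so many
edges that the value of the whole game is small, although all lower levels are satisfiable
(`game_no`).  The games with satisfiable levels `< t` form a chain; for fixed guesses of the outputs
of the NOT gates everything is monotone, and each of the at most `2 ^ (r + 1)` monotone functions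
(`GnGss`) changes at few levels only, up to the small advantage of monotone circuits on one level
(`gen_gap`, `chain_eps`).  But at every level one of these functions of one of the circuits has to
separate, with probability at least `2 ε`.
-/

set_option autoImplicit false

open scoped Classical

namespace Pool.Agent.Results.MP_ec946a_lc.FewNegations

open H589DT
open Pool.Agent.L0h35.Ng Pool.Agent.L0h35.Gn

/-- Let `δ > 0`, `q` and `N0` suitable, `N ≥ N0`, `K ≥ 1`, `0 < ε ≤ 1 / 2` and
`140 K 2 ^ r log₂ log₂ N ≤ ε log₂ N`. Let `h o (C o 1, ..., C o K)`, `o ∈ Ω` random, be functions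
of `K` circuits with at most `r` NOT gates on the bits `code e I` of the games `I` with `N + N`
vertices and alphabet `[q]`. If the value is `true` with probability at least `1 / 2 + ε` for all
games of value at most `δ` and `false` with probability at least `1 / 2 + ε` for all games of value
one, then one of the circuits has size at least `2 ^ D` and depth at least `D`, where
`D = N ^ (ε / (140 K 2 ^ r))`. -/
theorem result (δ : ℝ) (hδ : 0 < δ) :
    ∃ q : ℕ, 1 ≤ q ∧ ∃ N0 : ℕ, ∀ N : ℕ, N0 ≤ N →
    ∀ (K r : ℕ) (ε : ℝ), 1 ≤ K → 0 < ε → ε ≤ 1 / 2 →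
    140 * (K * 2 ^ r) * Real.logb 2 (Real.logb 2 N) ≤ ε * Real.logb 2 N →
    ∀ (nb : ℕ) (e : Fin nb ≃ Fin N × Fin N × (Fin q → Fin q))
    (Ω : Type) [Fintype Ω] [Nonempty Ω] (h : Ω → (Fin K → Bool) → Bool)
    (C : Ω → Fin K → Circuit nb), (∀ o i, (C o i).nots ≤ r) →
    (∀ I : TGame (Fin N) (Fin N) q,
      (TNo δ I → (1 / 2 + ε) * Fintype.card Ω ≤
        (Finset.univ.filter fun o => h o (fun i => (C o i).value (code e I)) = true).card) ∧
      (TYes I → (1 / 2 + ε) * Fintype.card Ω ≤
        (Finset.univ.filter fun o => h o (fun i => (C o i).value (code e I)) = false).card)) →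
    ∃ o i, (2 : ℝ) ^ ((N : ℝ) ^ (ε / (140 * (K * 2 ^ r)))) ≤ (C o i).size ∧
      (N : ℝ) ^ (ε / (140 * (K * 2 ^ r))) ≤ (C o i).depth := by
  obtain ⟨q, hq, N0, hN0⟩ := final_gap δ hδ
  refine ⟨q, hq, N0, fun N hN K r ε hK hε hε2 hr nb e Ω _ _ h C hnots hright => ?_⟩
  have key := hN0 N hN K r ε hK hε hε2 hr nb e Ω h C hnots hright
  by_contra hcon
  push Not at hcon
  refine key fun o i => ?_
  by_cases h1 : (2 : ℝ) ^ ((N : ℝ) ^ (ε / (140 * (K * 2 ^ r)))) ≤ (C o i).size
  · exact Or.inr (hcon o i h1)
  · exact Or.inl (not_le.1 h1)

end Pool.Agent.Results.MP_ec946a_lc.FewNegations
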