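import Pool.Agent.L0h20.RS.GameRes
import Pool.Agent.L0h20.RS.Exist

/-!
# 2-to-1 games of small value, consistent on linearly many vertices, exponentially hard for resolution

The definitions used in the statement are `LocallyConsistent`, `formula`, `Satisfies` in
`Pool/Agent/L0h20/RS/GameDefs.lean`, `Resolves`, `Derives`, `Memory` in `Pool/Agent/L0h20/RS/Res.lean`
and `TGame`, `TNo` in `Pool/Agent/H589R3/DT/Two.lean`.

For every `δ > 0` there are an alphabet `[q]`, a degree bound `D` and a constant `c > 0` such that for
all large `n` there is a 2-to-1 game `I` on `n + n` vertices with left degrees at most `D` in which no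
labelling satisfies more than a fraction `δ` of the edges, but which cannot be told from a game of value
one by local consistency of level `c n` (existential pebble game with `c n` pebbles); in particular all
constraints among any `c n` vertices can be satisfied at once. Moreover the formula which says that the
value of the game is one has `O(n)` clauses, and each of its resolution refutations has at least
`exp (c n)` clauses, contains a clause with at least `c n` literals and keeps at least `c n` clauses
in memory at some time.

So algorithms and proofs of unsatisfiability which are captured by resolution (label propagation, local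
consistency, DPLL and clause learning with restarts, each with any heuristic) need exponential time
to tell 2-to-1 games of value one from those of value `δ`, for each constant `δ`.

Proof. Labels of `u` are pairs of an element `x` of `ℤ/p` and a bit `j`, the constraint of the `i`-th
edge at `u` is `label v = x - i j + s`. In a suitable random graph of degree `D` (a bounded number of
short cycles is cut by removing a few vertices) each set of at most `n / K` vertices spans at most
`(1 + ε)` times as many edges; closed sets of linear size have locally consistent labellings (the labels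
of the ends of long nonbacktracking walks are independent), by the starting files. The value is small for
some shifts `s`, by counting. Local consistency gives a strategy against derivations of small width and
against small memory; the lower bound for the size follows by the trade-off between size and width.
-/

set_option autoImplicit false

open Finset

namespace Pool.Agent.Results.MP_ec946a_lc.LinearConsistencyResolution

open H589DT Pool.Agent.L0h20.RS

/-- the number of clauses -/
theorem ncard_formula {n q D : ℕ} (I : TGame (Fin n) (Fin n) q)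
    (hD : ∀ u, {v | I.adj u v}.ncard ≤ D) :
    (formula I).ncard ≤ (2 + 2 * q ^ 2 + D * q ^ 2) * n := by
  classical
  let A1 : Finset (Finset (((Fin n ⊕ Fin n) × Fin q) × Bool)) :=
    (univ : Finset (Fin n ⊕ Fin n)).image fun x => univ.image fun a : Fin q => ((x, a), true)
  let A2 : Finset (Finset (((Fin n ⊕ Fin n) × Fin q) × Bool)) :=
    (univ : Finset ((Fin n ⊕ Fin n) × Fin q × Fin q)).image fun t =>
      {((t.1, t.2.1), false), ((t.1, t.2.2), false)}
  let E : Finset (Fin n × Fin n) := univ.filter fun e => I.adj e.1 e.2
  let A3 : Finset (Finset (((Fin n ⊕ Fin n) × Fin q) × Bool)) :=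
    (E ×ˢ (univ : Finset (Fin q × Fin q))).image fun t =>
      {((Sum.inl t.1.1, t.2.1), false), ((Sum.inr t.1.2, t.2.2), false)}
  have hsub : formula I ⊆ ((A1 ∪ A2 ∪ A3 : Finset _) : Set _) := by
    rintro A (⟨x, rfl⟩ | ⟨x, a, a', -, rfl⟩ | ⟨u, v, a, b, huv, -, rfl⟩)
    · exact mem_coe.2 (mem_union_left _ (mem_union_left _ (mem_image.2 ⟨x, mem_univ _, rfl⟩)))
    · exact mem_coe.2 (mem_union_left _ (mem_union_right _
        (mem_image.2 ⟨(x, a, a'), mem_univ _, rfl⟩)))
    · exact mem_coe.2 (mem_union_right _ (mem_image.2 ⟨((u, v), (a, b)),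
        mem_product.2 ⟨mem_filter.2 ⟨mem_univ _, huv⟩, mem_univ _⟩, rfl⟩))
  have h1 : A1.card ≤ 2 * n := by
    refine card_image_le.trans ?_
    rw [card_univ, Fintype.card_sum, Fintype.card_fin]
    omega
  have h2 : A2.card ≤ 2 * n * q ^ 2 := by
    refine card_image_le.trans ?_
    rw [card_univ, Fintype.card_prod, Fintype.card_prod, Fintype.card_sum, Fintype.card_fin,
      Fintype.card_fin]
    exact (by ring : (n + n) * (q * q) = 2 * n * q ^ 2).le
  have hE : E.card ≤ n * D := by
    have : E.card = ∑ u : Fin n, (univ.filter fun v => I.adj u v).card := by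
      rw [← card_sigma]
      refine card_bij (fun e _ => ⟨e.1, e.2⟩) ?_ ?_ ?_
      · intro e he
        simpa [E] using he
      · rintro ⟨a, b⟩ - ⟨c, d⟩ - h
        simp only [Sigma.mk.injEq, heq_eq_eq] at h
        rw [h.1, h.2]
      · rintro ⟨a, b⟩ h
        exact ⟨(a, b), by simpa [E] using h, rfl⟩
    rw [this]
    calc ∑ u : Fin n, (univ.filter fun v => I.adj u v).card ≤ ∑ _u : Fin n, D := by
          refine sum_le_sum fun u _ => ?_
          refine le_trans (le_of_eq ?_) (hD u)
          rw [Set.ncard_eq_toFinset_card']
          congr 1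
          ext v
          simp
      _ = n * D := by simp
  have h3 : A3.card ≤ n * D * q ^ 2 := by
    refine card_image_le.trans ?_
    rw [card_product, card_univ, Fintype.card_prod, Fintype.card_fin]
    calc E.card * (q * q) ≤ n * D * (q * q) := Nat.mul_le_mul_right _ hE
      _ = n * D * q ^ 2 := by ring
  calc (formula I).ncard ≤ (A1 ∪ A2 ∪ A3).card := by
        rw [← Set.ncard_coe_finset]
        exact Set.ncard_le_ncard hsub (Finset.finite_toSet _)
    _ ≤ A1.card + A2.card + A3.card :=
        (card_union_le _ _).trans (Nat.add_le_add_right (card_union_le _ _) _)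
    _ ≤ 2 * n + 2 * n * q ^ 2 + n * D * q ^ 2 := by omega
    _ = (2 + 2 * q ^ 2 + D * q ^ 2) * n := by ring

/-- the width of the axioms -/
theorem card_axiom {n q : ℕ} (I : TGame (Fin n) (Fin n) q)
    {A : Finset (((Fin n ⊕ Fin n) × Fin q) × Bool)} (hA : A ∈ formula I) : A.card ≤ q + 2 := by
  classical
  rcases hA with ⟨x, rfl⟩ | ⟨x, a, a', -, rfl⟩ | ⟨u, v, a, b, -, -, rfl⟩
  · refine card_image_le.trans ?_
    simp
  · exact card_le_two.trans (by omega)
  · exact card_le_two.trans (by omega)

/-- **2-to-1 games of small value which are consistent on linearly many vertices and exponentially hard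
for resolution.** The formula of a game is satisfiable if and only if the game has value one. For every
`δ > 0` there are `q`, `D`, `M` and `c > 0` such that for all large `n` there is a 2-to-1 game `I` with
alphabet `[q]` on `n + n` vertices, with left degrees at most `D` and value at most `δ`, such that
* `I` passes the test of local consistency of every level up to `c n`, and all the constraints among any
  `c n` vertices can be satisfied at once;
* the formula of `I` has at most `M n` clauses, and each of its resolution refutations contains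
  at least `exp (c n)` clauses, contains a clause with at least `c n` literals, and has at least `c n`
  clauses in memory at some time. -/
theorem result :
    (∀ (U V : Type) [DecidableEq U] [DecidableEq V] (q : ℕ) (I : TGame U V q),
      (∃ τ, Satisfies τ (formula I)) ↔
        ∃ (A : U → Fin q) (B : V → Fin q), ∀ u v, I.adj u v → I.map u v (A u) = B v) ∧
    ∀ δ : ℝ, 0 < δ → ∃ (q D M : ℕ) (c : ℝ) (n0 : ℕ), 0 < c ∧ ∀ n : ℕ, n0 ≤ n →
      ∃ I : TGame (Fin n) (Fin n) q, TNo δ I ∧ (∀ u, {v | I.adj u v}.ncard ≤ D) ∧
        (∀ l : ℕ, (l : ℝ) ≤ c * n → LocallyConsistent I l) ∧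
        (∀ S : Finset (Fin n ⊕ Fin n), (S.card : ℝ) ≤ c * n →
          ∃ (A : Fin n → Fin q) (B : Fin n → Fin q), ∀ u v, Sum.inl u ∈ S → Sum.inr v ∈ S →
            I.adj u v → I.map u v (A u) = B v) ∧
        (formula I).ncard ≤ M * n ∧
        (∀ l : List (Finset (((Fin n ⊕ Fin n) × Fin q) × Bool)), Derives (formula I) l → ∅ ∈ l →
          Real.exp (c * n) ≤ l.length ∧ ∃ C ∈ l, c * n ≤ (C.card : ℝ)) ∧
        ∀ (s : ℕ) (M : Finset (Finset (((Fin n ⊕ Fin n) × Fin q) × Bool))),
          Memory (formula I) s M → ∅ ∈ M → c * n ≤ s := by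
  refine ⟨fun U V _ _ q I => sat_iff I, fun δ hδ => ?_⟩
  obtain ⟨q, D, K, n0, hq, hK, h⟩ := exists_game δ hδ
  have hK' : (1 : ℝ) ≤ K := by exact_mod_cast hK
  have hq' : (1 : ℝ) ≤ q := by exact_mod_cast hq
  refine ⟨q, D, 2 + 2 * q ^ 2 + D * q ^ 2, 1 / (256 * K ^ 2 * q), n0 + 4 * K * (q + 8),
    by positivity, fun n hn => ?_⟩
  obtain ⟨I, hno, hdeg, hlc⟩ := h n (by omega)
  have hn1 : 4 * K * (q + 8) ≤ n := by omega
  have hn2 : 0 < n := lt_of_lt_of_le (by positivity) hn1
  have hn' : (0 : ℝ) < n := by exact_mod_cast hn2
  set l0 := n / K with hl0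
  have hl1 : K * l0 ≤ n := Nat.mul_div_le n K
  have hl2 : n < K * l0 + K := by
    have := Nat.lt_div_mul_add (a := n) (b := K) (by omega)
    rw [mul_comm] at this
    exact this
  have hl3 : 4 * (q + 8) ≤ l0 := by
    rw [hl0, Nat.le_div_iff_mul_le (by omega)]
    calc 4 * (q + 8) * K = 4 * K * (q + 8) := by ring
      _ ≤ n := hn1
  have hlr : (n : ℝ) < K * l0 + K := by exact_mod_cast hl2
  -- the constant
  have hc : 1 / (256 * (K : ℝ) ^ 2 * q) * n ≤ n / (256 * K) := by
    rw [one_div, ← div_eq_inv_mul]
    apply div_le_div_of_nonneg_left hn'.le (by positivity)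
    nlinarith [mul_le_mul_of_nonneg_left hK' (by positivity : (0 : ℝ) ≤ 256 * K),
      mul_le_mul_of_nonneg_left hq' (by positivity : (0 : ℝ) ≤ 256 * K ^ 2)]
  have hc2 : (n : ℝ) / (256 * K) ≤ l0 / 128 := by
    rw [div_le_div_iff₀ (by positivity) (by norm_num)]
    have : (1 : ℝ) ≤ l0 := by exact_mod_cast (by omega : 1 ≤ l0)
    nlinarith
  have hlb : 1 / (256 * (K : ℝ) ^ 2 * q) * n ≤ l0 / 128 := hc.trans hc2
  have hl0r : (32 : ℝ) ≤ l0 := by exact_mod_cast (by omega : 32 ≤ l0)
  have hle : ∀ l : ℕ, (l : ℝ) ≤ 1 / (256 * (K : ℝ) ^ 2 * q) * n → l ≤ l0 := by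
    intro l hl
    have : (l : ℝ) ≤ l0 := by
      have := hl.trans hlb
      linarith
    exact_mod_cast this
  have hcons : ∀ l : ℕ, l ≤ l0 → LocallyConsistent I l := fun l hl =>
    hlc l ((Nat.mul_le_mul_left _ hl).trans hl1)
  refine ⟨I, hno, hdeg, fun l hl => hcons l (hle l hl), fun S hS => ?_, ncard_formula I hdeg,
    fun l hl he => ⟨?_, ?_⟩, fun s M hM he => ?_⟩
  · obtain ⟨C, ⟨ρ, h0⟩, -, h2, h3⟩ := hcons S.card (hle _ hS)
    obtain ⟨ρ', -, h4⟩ := h2 ∅ S ρ (empty_subset _) le_rfl h0
    exact ⟨fun u => ρ' (Sum.inl u), fun v => ρ' (Sum.inr v), fun u v hu hv huv =>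
      h3 S ρ' h4 u v hu hv huv⟩
  · -- the size
    set d := (l0 - 1) / 2 with hd
    have hX : Fintype.card ((Fin n ⊕ Fin n) × Fin q) = 2 * n * q := by
      rw [Fintype.card_prod, Fintype.card_sum, Fintype.card_fin, Fintype.card_fin]
      ring
    have hd1 : d ≤ n := by
      have : l0 ≤ n := Nat.div_le_self n K
      omega
    have hnq : n ≤ n * q := Nat.le_mul_of_pos_right n hq
    have h1 := size_of_width (X := (Fin n ⊕ Fin n) × Fin q) (by rw [hX]; positivity) (d := d) (b := d)
      (by rw [hX]; nlinarith) (F := formula I)
      (fun A hA => (card_axiom I hA).trans (by omega))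
      (not_der (hcons l0 le_rfl) (by omega)) hl he
    refine le_trans (Real.exp_le_exp.2 ?_) h1
    rw [hX]
    have hd2 : (l0 : ℝ) ≤ 4 * d := by exact_mod_cast (by omega : l0 ≤ 4 * d)
    have hd3 : (n : ℝ) ≤ 8 * K * d := by
      have hd4 : (1 : ℝ) ≤ d := by exact_mod_cast (by omega : 1 ≤ d)
      nlinarith
    push_cast
    rw [one_div, ← div_eq_inv_mul, div_le_div_iff₀ (by positivity) (by positivity)]
    have h5 : (n : ℝ) * n ≤ (8 * K * d) * (8 * K * d) :=
      mul_le_mul hd3 hd3 hn'.le (by positivity)
    nlinarith [mul_le_mul_of_nonneg_left h5 (by positivity : (0 : ℝ) ≤ q)]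
  · -- the width
    by_contra hcon
    push Not at hcon
    have h1 : ∀ C ∈ l, C.card ≤ l0 - 1 := by
      intro C hC
      have h2 := (hcon C hC).trans_le hlb
      have h3 : (C.card : ℝ) < l0 := by linarith
      have h4 : C.card < l0 := by exact_mod_cast h3
      omega
    exact not_der (hcons l0 le_rfl) (by omega) (hl.der h1 ∅ he)
  · -- the space
    by_contra hcon
    push Not at hcon
    have h2 := hcon.trans_le hlb
    have h3 : (s : ℝ) + 2 ≤ l0 := by linarith
    have h4 : s + 2 ≤ l0 := by exact_mod_cast h3
    exact not_memory (hcons l0 le_rfl) h4 hM he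

end Pool.Agent.Results.MP_ec946a_lc.LinearConsistencyResolution
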